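import Pool.Agent.H6.FB.Stmts

/-!
# Project FB: module CRV
-/

set_option autoImplicit false

open Metric Set Filter Topology

namespace Pool.Agent.H6.FB

/-- holomorphic local inverse -/
lemma crv_inv (hdif : DIFStmt) {E : Type} [NormedAddCommGroup E] [NormedSpace ℂ E]
    [FiniteDimensional ℂ E] (Φ : E → E) {U : Set E} (hU : IsOpen U)
    (hΦ : DifferentiableOn ℂ Φ U) (z₀ : E) (hz₀ : z₀ ∈ U)
    (hinj : Function.Injective (fderiv ℂ Φ z₀)) :
    ∃ Ψ : E → E, Ψ (Φ z₀) = z₀ ∧ ContinuousAt Ψ (Φ z₀) ∧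
      (∀ᶠ y in 𝓝 (Φ z₀), DifferentiableAt ℂ Ψ y) ∧ (∀ᶠ y in 𝓝 (Φ z₀), Φ (Ψ y) = y) ∧
      ∀ᶠ z in 𝓝 z₀, Ψ (Φ z) = z := by
  have : CompleteSpace E := FiniteDimensional.complete ℂ E
  obtain ⟨-, hcd, hst⟩ := hdif E E Φ U hU hΦ
  have hst0 := hst z₀ hz₀
  let e : E ≃L[ℂ] E := (LinearEquiv.ofInjectiveEndo
    ((fderiv ℂ Φ z₀ : E →L[ℂ] E) : E →ₗ[ℂ] E) hinj).toContinuousLinearEquiv
  have he : (e : E →L[ℂ] E) = fderiv ℂ Φ z₀ := by
    ext x
    rfl
  have hst1 : HasStrictFDerivAt Φ (e : E →L[ℂ] E) z₀ := by rw [he]; exact hst0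
  have h1 : ContDiffAt ℂ (1 : ℕ) Φ z₀ := (hcd 1).contDiffAt (hU.mem_nhds hz₀)
  have h2 : ContDiffAt ℂ (1 : ℕ) (h1.localInverse hst1.hasFDerivAt (by simp)) (Φ z₀) :=
    h1.to_localInverse hst1.hasFDerivAt (by simp)
  have h3 : HasStrictFDerivAt Φ (e : E →L[ℂ] E) z₀ :=
    h1.hasStrictFDerivAt' hst1.hasFDerivAt (by simp)
  refine ⟨h3.localInverse Φ e z₀, h3.localInverse_apply_image, h3.localInverse_continuousAt, ?_,
    h3.eventually_right_inverse, h3.eventually_left_inverse⟩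
  have h4 := h2.eventually (by simp)
  filter_upwards [h4] with y hy
  exact hy.differentiableAt (by simp)

theorem crv_thm (hdif : DIFStmt) (hzer : ZERStmt) (hord : ORDStmt) : CRVStmt := by
  intro E _ _ _ hE g U p hU hg hp hgp hne
  classical
  obtain ⟨v, z₀, G, hz₀, hgz₀, hG, hgG, hGv, hline⟩ := hord E g U p hU hg hp hgp hne
  have hv : v ≠ 0 := by
    rintro rfl
    simp at hGv
  obtain ⟨l, hl⟩ : ∃ l : E →L[ℂ] ℂ, l v = 1 := SeparatingDual.exists_eq_one hv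
  obtain ⟨w, hw, hlw⟩ : ∃ w : E, w ≠ 0 ∧ l w = 0 := by
    by_contra hcon
    push Not at hcon
    have h1 : Function.Injective (l : E →ₗ[ℂ] ℂ) := by
      rw [injective_iff_map_eq_zero]
      intro a ha
      by_contra h2
      exact hcon a h2 ha
    have h2 := LinearMap.finrank_le_finrank_of_injective h1
    rw [Module.finrank_self] at h2
    omega
  set Φ : E → E := fun z => z + (G z - l z) • v with hΦ
  have hGz₀ : G z₀ = 0 := hgG.self_of_nhds hgz₀
  have hΦd : DifferentiableOn ℂ Φ U :=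
    differentiableOn_id.add ((hG.sub l.differentiable.differentiableOn).smul_const v)
  have hder : HasFDerivAt Φ
      (ContinuousLinearMap.id ℂ E + (fderiv ℂ G z₀ - l).smulRight v) z₀ := by
    have h1 : HasFDerivAt G (fderiv ℂ G z₀) z₀ :=
      (hG.differentiableAt (hU.mem_nhds hz₀)).hasFDerivAt
    exact (hasFDerivAt_id z₀).add ((h1.sub l.hasFDerivAt).smul_const v)
  have hinj : Function.Injective (fderiv ℂ Φ z₀) := by
    rw [hder.fderiv, injective_iff_map_eq_zero]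
    intro u hu
    have h1 : u + (fderiv ℂ G z₀ u - l u) • v = 0 := by simpa using hu
    set μ : ℂ := l u - fderiv ℂ G z₀ u with hμ
    have h2 : u = μ • v := by
      have h3 : u = -((fderiv ℂ G z₀ u - l u) • v) := eq_neg_of_add_eq_zero_left h1
      rw [h3, ← neg_smul, hμ]
      congr 1
      ring
    have h3 : l u = μ := by rw [h2]; simp [hl]
    have h4 : fderiv ℂ G z₀ u = μ * fderiv ℂ G z₀ v := by rw [h2]; simp
    have h5 : μ * fderiv ℂ G z₀ v = 0 := by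
      rw [← h4]
      have h6 := hμ
      rw [h3] at h6
      linear_combination h6
    rcases mul_eq_zero.1 h5 with h6 | h6
    · rw [h2, h6, zero_smul]
    · exact absurd h6 hGv
  obtain ⟨Ψ, hΨ0, hΨc, hΨd, hΦΨ, hΨΦ⟩ := crv_inv hdif Φ hU hΦd z₀ hz₀ hinj
  -- a good ball
  obtain ⟨r, hr, hball⟩ := Metric.mem_nhds_iff.1 ((hΨΦ.and hgG).and (hU.mem_nhds hz₀))
  have hvn : 0 < ‖v‖ := norm_pos_iff.2 hv
  have hz := hzer E g U z₀ v hU hg hz₀ hgz₀ hline (r / (2 * ‖v‖)) (by positivity)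
  have hev : ∀ᶠ y in 𝓝 (Φ z₀), (DifferentiableAt ℂ Ψ y ∧ Φ (Ψ y) = y) ∧
      (Ψ y ∈ ball z₀ (r / 2) ∧ ∃ ζ : ℂ, ‖ζ‖ < r / (2 * ‖v‖) ∧ g (Ψ y + ζ • v) = 0) := by
    refine (hΨd.and hΦΨ).and ?_
    have h1 : Tendsto Ψ (𝓝 (Φ z₀)) (𝓝 z₀) := by
      have := hΨc.tendsto
      rwa [hΨ0] at this
    exact h1.eventually ((ball_mem_nhds z₀ (half_pos hr)) |> fun h => (Filter.Eventually.and h hz))
  have hlin : Tendsto (fun s : ℂ => Φ z₀ + s • w) (𝓝 0) (𝓝 (Φ z₀)) := by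
    have h1 : Continuous (fun s : ℂ => Φ z₀ + s • w) := by fun_prop
    have h2 := h1.tendsto 0
    simpa using h2
  obtain ⟨δ, hδ, hδb⟩ := Metric.mem_nhds_iff.1 (hlin.eventually hev)
  refine ⟨fun s => Ψ (Φ z₀ + s • w), δ, hδ, ?_, ?_, ?_⟩
  · intro s hs
    have h1 : DifferentiableAt ℂ (fun s : ℂ => Φ z₀ + s • w) s := by fun_prop
    exact ((hδb hs).1.1.comp s h1).differentiableWithinAt
  · intro s hs s' hs' hss
    have h1 := (hδb hs).1.2
    have h2 := (hδb hs').1.2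
    dsimp only at hss h1 h2
    rw [hss, h2] at h1
    have h3 : (s' - s) • w = 0 := by
      rw [sub_smul, sub_eq_zero]
      exact add_left_cancel h1
    rcases smul_eq_zero.1 h3 with h4 | h4
    · exact (sub_eq_zero.1 h4).symm
    · exact absurd h4 hw
  · intro s hs
    obtain ⟨⟨-, h1⟩, h2, ζ, hζ, h3⟩ := hδb hs
    dsimp only at h1 h2 h3 ⊢
    set x : E := Ψ (Φ z₀ + s • w) with hx
    have hxr : x ∈ ball z₀ r := ball_subset_ball (by linarith) h2
    have hxr' : x + ζ • v ∈ ball z₀ r := by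
      rw [mem_ball, dist_eq_norm] at h2 ⊢
      have h4 : ‖ζ • v‖ < r / 2 := by
        rw [norm_smul]
        calc ‖ζ‖ * ‖v‖ < r / (2 * ‖v‖) * ‖v‖ := mul_lt_mul_of_pos_right hζ hvn
          _ = r / 2 := by field_simp
      calc ‖x + ζ • v - z₀‖ = ‖(x - z₀) + ζ • v‖ := by congr 1; abel
        _ ≤ ‖x - z₀‖ + ‖ζ • v‖ := norm_add_le _ _
        _ < r := by linarith
    obtain ⟨⟨h5, -⟩, h6⟩ := hball hxr
    obtain ⟨⟨h7, h8⟩, -⟩ := hball hxr'
    refine ⟨h6, ?_⟩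
    have h9 : G (x + ζ • v) = 0 := h8 h3
    -- `G x = 0`
    have hlG : ∀ z, l (Φ z) = G z := by
      intro z
      simp [hΦ, hl]
    have h10 : G x = 0 := by
      rw [← hlG x, h1]
      simp [hlG, hGz₀, hlw]
    have h11 : Φ (x + ζ • v) = Φ x := by
      rw [hΦ]
      dsimp only
      rw [h9, h10, map_add, map_smul, hl]
      simp only [smul_eq_mul, mul_one, zero_sub, neg_add_rev, neg_smul, add_smul]
      abel
    have h12 : x + ζ • v = x := by
      rw [← h7, h11, h5]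
    have h13 := h3
    rwa [h12] at h13

end Pool.Agent.H6.FB
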