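import Pool.Agent.H6.FB.Stmts

/-!
# Project FB: module DSC
-/

set_option autoImplicit false

open Metric Set Filter Topology

namespace Pool.Agent.H6.FB

/-- maximum principle on the closed unit disc -/
lemma dsc_max {E : Type} [NormedAddCommGroup E] [NormedSpace ℂ E] {g : ℂ → E} {C : ℝ}
    (hc : ContinuousOn g (closedBall 0 1)) (hd : DifferentiableOn ℂ g (ball 0 1))
    (hC : ∀ ζ ∈ sphere (0 : ℂ) 1, ‖g ζ‖ ≤ C) : ∀ ζ ∈ closedBall (0 : ℂ) 1, ‖g ζ‖ ≤ C := by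
  intro ζ hζ
  have h1 : DiffContOnCl ℂ g (ball (0 : ℂ) 1) :=
    ⟨hd, by rwa [closure_ball (0 : ℂ) one_ne_zero]⟩
  refine Complex.norm_le_of_forall_mem_frontier_norm_le isBounded_ball h1 ?_ ?_
  · rw [frontier_ball (0 : ℂ) one_ne_zero]; exact hC
  · rwa [closure_ball (0 : ℂ) one_ne_zero]

theorem dsc_thm (hhur : HURStmt) : DSCStmt := by
  intro E _ _ _ f d hf hinj hbad
  obtain ⟨hfc, hfd⟩ := hf
  obtain ⟨hdc, hdd, hcirc, ζ₀, hζ₀, hnot⟩ := hbad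
  have : ProperSpace E := FiniteDimensional.proper ℂ E
  -- radius r
  have hKc : IsCompact (d '' sphere (0 : ℂ) 1) :=
    (isCompact_sphere _ _).image_of_continuousOn (hdc.mono sphere_subset_closedBall)
  obtain ⟨r, hr0, hr1, η, hη, hr⟩ := hhur E f hfd hinj (d '' sphere (0 : ℂ) 1) hKc
    (by rintro _ ⟨ζ, hζ, rfl⟩; exact hcirc ζ hζ)
  have hK := hr f hfd (fun z _ => by simpa using hη)
  -- distance of `d ζ₀` from the image
  have hIc : IsClosed (f '' closedBall (0 : E) 1) :=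
    ((isCompact_closedBall _ _).image_of_continuousOn hfc).isClosed
  obtain ⟨ε, hε, hεd⟩ : ∃ ε > 0, ∀ w ∈ closedBall (0 : E) 1, ε ≤ ‖f w - d ζ₀‖ := by
    have h1 : (f '' closedBall (0 : E) 1)ᶜ ∈ 𝓝 (d ζ₀) := hIc.isOpen_compl.mem_nhds hnot
    obtain ⟨ε, hε, h2⟩ := Metric.mem_nhds_iff.1 h1
    refine ⟨ε, hε, fun w hw => ?_⟩
    by_contra hcon
    push Not at hcon
    exact h2 (show f w ∈ ball (d ζ₀) ε by rwa [mem_ball, dist_eq_norm]) ⟨w, hw, rfl⟩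
  -- uniform continuity
  obtain ⟨δ₀, hδ₀, hu⟩ := Metric.uniformContinuousOn_iff.1
    ((isCompact_closedBall (0 : E) 1).uniformContinuousOn_of_continuous hfc) (ε / 2) (half_pos hε)
  refine ⟨min δ₀ ((1 - r) / 2), lt_min hδ₀ (by linarith), ?_⟩
  intro H hHc hHd
  by_contra hcon
  push Not at hcon
  have hpt : ∀ ζ ∈ sphere (0 : ℂ) 1, ∃ w ∈ closedBall (0 : E) r, f w = d ζ := by
    intro ζ hζ
    obtain ⟨w, hw, h1⟩ := hK ⟨ζ, hζ, rfl⟩
    exact ⟨w, hw, h1⟩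
  have hsub : closedBall (0 : E) r ⊆ ball (0 : E) 1 := closedBall_subset_ball hr1
  have hsub2 : closedBall (0 : E) ((1 + r) / 2) ⊆ ball (0 : E) 1 :=
    closedBall_subset_ball (by linarith)
  -- bound on the circle
  have hHb : ∀ ζ ∈ sphere (0 : ℂ) 1, ‖H ζ‖ ≤ (1 + r) / 2 := by
    intro ζ hζ
    obtain ⟨w, hw, h1⟩ := hpt ζ hζ
    have h2 := (hcon ζ hζ w (hsub hw) h1).trans_le (min_le_right _ _)
    have h3 : ‖w‖ ≤ r := by simpa using hw
    calc ‖H ζ‖ = ‖(H ζ - w) + w‖ := by rw [sub_add_cancel]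
      _ ≤ ‖H ζ - w‖ + ‖w‖ := norm_add_le _ _
      _ ≤ (1 - r) / 2 + r := add_le_add h2.le h3
      _ = (1 + r) / 2 := by ring
  have hHb' : ∀ ζ ∈ closedBall (0 : ℂ) 1, ‖H ζ‖ ≤ (1 + r) / 2 := dsc_max hHc hHd hHb
  have hmap : MapsTo H (closedBall (0 : ℂ) 1) (ball (0 : E) 1) := by
    intro ζ hζ
    exact hsub2 (by simpa using hHb' ζ hζ)
  have hgc : ContinuousOn (fun ζ => f (H ζ) - d ζ) (closedBall (0 : ℂ) 1) :=
    ((hfc.mono ball_subset_closedBall).comp hHc hmap).sub hdc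
  have hgd : DifferentiableOn ℂ (fun ζ => f (H ζ) - d ζ) (ball (0 : ℂ) 1) :=
    (hfd.comp hHd (hmap.mono_left ball_subset_closedBall)).sub hdd
  have hgb : ∀ ζ ∈ sphere (0 : ℂ) 1, ‖f (H ζ) - d ζ‖ ≤ ε / 2 := by
    intro ζ hζ
    obtain ⟨w, hw, h1⟩ := hpt ζ hζ
    have h2 := (hcon ζ hζ w (hsub hw) h1).trans_le (min_le_left _ _)
    have h3 := hu (H ζ) (ball_subset_closedBall (hmap (sphere_subset_closedBall hζ))) w
      (ball_subset_closedBall (hsub hw)) (by rwa [dist_eq_norm])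
    rw [dist_eq_norm, h1] at h3
    exact h3.le
  have h4 := dsc_max hgc hgd hgb ζ₀ hζ₀
  have h5 := hεd (H ζ₀) (ball_subset_closedBall (hmap hζ₀))
  linarith

end Pool.Agent.H6.FB
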