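import Pool.Agent.H6.FB.Stmts

/-!
# Project FB: module ORD
-/

set_option autoImplicit false

open Metric Set Filter Topology

namespace Pool.Agent.H6.FB

noncomputable section

variable {E : Type} [NormedAddCommGroup E] [NormedSpace ℂ E]

/-- iterated directional derivatives -/
def ordSeq (g : E → ℂ) (v : E) : ℕ → E → ℂ
  | 0 => g
  | j + 1 => fun z => fderiv ℂ (ordSeq g v j) z v

lemma ord_diff [FiniteDimensional ℂ E] (hdif : DIFStmt) (g : E → ℂ) (v : E) {U : Set E}
    (hU : IsOpen U) (hg : DifferentiableOn ℂ g U) :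
    ∀ j : ℕ, DifferentiableOn ℂ (ordSeq g v j) U := by
  intro j
  induction j with
  | zero => exact hg
  | succ j ih =>
    have h1 := (hdif E ℂ (ordSeq g v j) U hU ih).1
    exact h1.clm_apply (differentiableOn_const v)

lemma ord_line (z v : E) (ζ : ℂ) : HasDerivAt (fun t : ℂ => z + t • v) v ζ := by
  simpa using ((hasDerivAt_id ζ).smul_const v).const_add z

lemma ord_hasDeriv [FiniteDimensional ℂ E] (hdif : DIFStmt) (g : E → ℂ) (v : E) {U : Set E}
    (hU : IsOpen U) (hg : DifferentiableOn ℂ g U) (j : ℕ) (z : E) (ζ : ℂ) (hz : z + ζ • v ∈ U) :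
    HasDerivAt (fun t : ℂ => ordSeq g v j (z + t • v)) (ordSeq g v (j + 1) (z + ζ • v)) ζ := by
  have h1 : HasFDerivAt (ordSeq g v j) (fderiv ℂ (ordSeq g v j) (z + ζ • v)) (z + ζ • v) :=
    ((ord_diff hdif g v hU hg j).differentiableAt (hU.mem_nhds hz)).hasFDerivAt
  exact h1.comp_hasDerivAt ζ (ord_line z v ζ)

lemma ord_open {U : Set E} (hU : IsOpen U) (z v : E) :
    IsOpen {ζ : ℂ | z + ζ • v ∈ U} :=
  hU.preimage (by fun_prop)

lemma ord_iter [FiniteDimensional ℂ E] (hdif : DIFStmt) (g : E → ℂ) (v : E) {U : Set E}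
    (hU : IsOpen U) (hg : DifferentiableOn ℂ g U) (z : E) :
    ∀ (j : ℕ) (ζ : ℂ), z + ζ • v ∈ U →
      iteratedDeriv j (fun t : ℂ => g (z + t • v)) ζ = ordSeq g v j (z + ζ • v) := by
  intro j
  induction j with
  | zero => intro ζ _; simp [ordSeq]
  | succ j ih =>
    intro ζ hζ
    rw [iteratedDeriv_succ]
    have h1 : iteratedDeriv j (fun t : ℂ => g (z + t • v)) =ᶠ[𝓝 ζ]
        fun t => ordSeq g v j (z + t • v) := by
      filter_upwards [(ord_open hU z v).mem_nhds hζ] with t ht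
      exact ih t ht
    rw [h1.deriv_eq]
    exact (ord_hasDeriv hdif g v hU hg j z ζ hζ).deriv

lemma ord_analytic {U : Set E} (hU : IsOpen U) {g : E → ℂ} (hg : DifferentiableOn ℂ g U)
    (z v : E) : AnalyticOnNhd ℂ (fun t : ℂ => g (z + t • v)) {ζ : ℂ | z + ζ • v ∈ U} := by
  refine DifferentiableOn.analyticOnNhd ?_ (ord_open hU z v)
  refine hg.comp ?_ (fun ζ hζ => hζ)
  exact fun ζ _ => (ord_line z v ζ).differentiableAt.differentiableWithinAt

/-- zero jet implies local vanishing on a line -/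
lemma ord_event [FiniteDimensional ℂ E] (hdif : DIFStmt) (g : E → ℂ) (v : E) {U : Set E}
    (hU : IsOpen U) (hg : DifferentiableOn ℂ g U) (z : E) (hz : z ∈ U) :
    (∀ᶠ ζ in 𝓝 (0 : ℂ), g (z + ζ • v) = 0) ↔ ∀ j, ordSeq g v j z = 0 := by
  have hz' : z + (0 : ℂ) • v ∈ U := by simpa using hz
  have hA : AnalyticAt ℂ (fun t : ℂ => g (z + t • v)) 0 := ord_analytic hU hg z v 0 hz'
  rw [← analyticOrderAt_eq_top (f := fun t : ℂ => g (z + t • v)), ENat.eq_top_iff_forall_ge]
  constructor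
  · intro h j
    have h1 := (natCast_le_analyticOrderAt_iff_iteratedDeriv_eq_zero hA).1 (h (j + 1)) j
      (Nat.lt_succ_self j)
    rw [ord_iter hdif g v hU hg z j 0 hz'] at h1
    simpa using h1
  · intro h n
    rw [natCast_le_analyticOrderAt_iff_iteratedDeriv_eq_zero hA]
    intro i _
    rw [ord_iter hdif g v hU hg z i 0 hz']
    simpa using h i

theorem ord_thm (hdif : DIFStmt) : ORDStmt := by
  intro E _ _ _ g U p hU hg hp hgp hne
  classical
  obtain ⟨ρ, hρ, hball⟩ := Metric.isOpen_iff.1 hU p hp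
  -- a point where `g` does not vanish
  obtain ⟨q, hq, hgq⟩ : ∃ q ∈ ball p ρ, g q ≠ 0 := by
    by_contra hcon
    push Not at hcon
    exact hne (Filter.eventually_of_mem (ball_mem_nhds p hρ) hcon)
  set v : E := q - p with hv
  -- some derivative at `p` does not vanish
  have hex : ∃ j, ordSeq g v j p ≠ 0 := by
    by_contra hcon
    push Not at hcon
    have h1 := (ord_event hdif g v isOpen_ball (hg.mono hball) p (mem_ball_self hρ)).2 hcon
    have hconv : IsPreconnected {ζ : ℂ | p + ζ • v ∈ ball p ρ} := by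
      have h2 : {ζ : ℂ | p + ζ • v ∈ ball p ρ} = {ζ : ℂ | ‖ζ‖ * ‖v‖ < ρ} := by
        ext ζ
        simp [mem_ball, dist_eq_norm, norm_smul]
      rw [h2]
      have h3 : Convex ℝ {ζ : ℂ | ‖ζ‖ * ‖v‖ < ρ} := by
        intro a ha b hb s t hs ht hst
        simp only [mem_ofPred_eq] at ha hb ⊢
        have h4 : ‖s • a + t • b‖ ≤ s * ‖a‖ + t * ‖b‖ := by
          refine (norm_add_le _ _).trans_eq ?_
          rw [norm_smul, norm_smul, Real.norm_of_nonneg hs, Real.norm_of_nonneg ht]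
        calc ‖s • a + t • b‖ * ‖v‖ ≤ (s * ‖a‖ + t * ‖b‖) * ‖v‖ :=
              mul_le_mul_of_nonneg_right h4 (norm_nonneg _)
          _ = s * (‖a‖ * ‖v‖) + t * (‖b‖ * ‖v‖) := by ring
          _ < ρ := by
              rcases hs.eq_or_lt with h0 | h0
              · have : t = 1 := by linarith
                subst this
                rw [← h0]; linarith
              · have h5 : s * (‖a‖ * ‖v‖) < s * ρ := mul_lt_mul_of_pos_left ha h0
                have h6 : t * (‖b‖ * ‖v‖) ≤ t * ρ := mul_le_mul_of_nonneg_left hb.le ht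
                nlinarith
      exact h3.isPreconnected
    have hA := ord_analytic isOpen_ball (hg.mono hball) p v
    have h5 := hA.eqOn_zero_of_preconnected_of_eventuallyEq_zero hconv (z₀ := 0)
      (by simpa using hρ) h1
    have h6 : (1 : ℂ) ∈ {ζ : ℂ | p + ζ • v ∈ ball p ρ} := by
      have h8 : p + (1 : ℂ) • v = q := by simp [hv]
      change p + (1 : ℂ) • v ∈ ball p ρ
      rwa [h8]
    have h7 := h5 h6
    apply hgq
    simpa [hv] using h7
  -- minimal order
  have hex2 : ∃ j, ∃ z ∈ ball p ρ, g z = 0 ∧ ordSeq g v j z ≠ 0 := by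
    obtain ⟨j, hj⟩ := hex
    exact ⟨j, p, mem_ball_self hρ, hgp, hj⟩
  obtain ⟨k, ⟨z₀, hz₀, hgz₀, hk⟩, hmin⟩ : ∃ k, (∃ z ∈ ball p ρ, g z = 0 ∧ ordSeq g v k z ≠ 0) ∧
      ∀ m < k, ¬ ∃ z ∈ ball p ρ, g z = 0 ∧ ordSeq g v m z ≠ 0 :=
    ⟨Nat.find hex2, Nat.find_spec hex2, fun m hm => Nat.find_min hex2 hm⟩
  cases k with
  | zero => exact absurd hgz₀ hk
  | succ k =>
    refine ⟨v, z₀, ordSeq g v k, hball hz₀, hgz₀, ord_diff hdif g v hU hg k, ?_, hk, ?_⟩
    · filter_upwards [isOpen_ball.mem_nhds hz₀] with z hz hgz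
      by_contra hcon
      exact hmin k (Nat.lt_succ_self k) ⟨z, hz, hgz, hcon⟩
    · intro hcon
      exact hk ((ord_event hdif g v hU hg z₀ (hball hz₀)).1 hcon (k + 1))

end

end Pool.Agent.H6.FB
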