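import Pool.Agent.H6.FB.Stmts

/-!
# Project FB: module OSC
-/

set_option autoImplicit false

open Metric Set Filter Topology

namespace Pool.Agent.H6.FB

/-- a map with zero derivative on a ball is constant there -/
lemma osc_const {E F : Type} [NormedAddCommGroup E] [NormedSpace ℂ E]
    [NormedAddCommGroup F] [NormedSpace ℂ F] {f : E → F} {p : E} {ρ : ℝ}
    (hf : DifferentiableOn ℂ f (ball p ρ)) (h0 : ∀ z ∈ ball p ρ, fderiv ℂ f z = 0) :
    ∀ x ∈ ball p ρ, ∀ y ∈ ball p ρ, f x = f y := by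
  intro x hx y hy
  refine (convex_ball p ρ).is_const_of_fderivWithin_eq_zero (𝕜 := ℂ) hf ?_ hx hy
  intro z hz
  rw [fderivWithin_of_isOpen isOpen_ball hz]
  exact h0 z hz

/-- finite products of holomorphic functions -/
lemma osc_prod {E ι : Type} [NormedAddCommGroup E] [NormedSpace ℂ E] {U : Set E}
    (s : Finset ι) (f : ι → E → ℂ) (hf : ∀ i, DifferentiableOn ℂ (f i) U) :
    DifferentiableOn ℂ (fun z => ∏ i ∈ s, f i z) U := by
  classical
  induction s using Finset.induction_on with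
  | empty => simp
  | insert a s ha ih =>
    have h1 : (fun z => ∏ i ∈ insert a s, f i z) = fun z => f a z * ∏ i ∈ s, f i z := by
      funext z
      rw [Finset.prod_insert ha]
    rw [h1]
    exact (hf a).mul ih

theorem osc_thm (hdif : DIFStmt) (hcrv : CRVStmt) : OSCStmt := by
  intro E F _ _ _ _ _ _ hE hF f U hU hf hinj halt p hp hp0
  classical
  have : Nontrivial E := Module.nontrivial_of_finrank_pos (R := ℂ) (by omega)
  let e : F ≃L[ℂ] E := ContinuousLinearEquiv.ofFinrankEq hF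
  let b := Module.finBasis ℂ E
  have : CompleteSpace F := FiniteDimensional.complete ℂ F
  have hdf : DifferentiableOn ℂ (fderiv ℂ f) U := (hdif E F f U hU hf).1
  set g : E → ℂ := fun z =>
    LinearMap.det (((e : F →L[ℂ] E).comp (fderiv ℂ f z) : E →L[ℂ] E) : E →ₗ[ℂ] E) with hg
  -- `g` is holomorphic
  have hgd : DifferentiableOn ℂ g U := by
    have h1 : g = fun z => ∑ σ : Equiv.Perm (Fin (Module.finrank ℂ E)),
        ((Equiv.Perm.sign σ : ℤ) : ℂ) * ∏ i, b.repr (e (fderiv ℂ f z (b i))) (σ i) := by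
      funext z
      rw [hg]
      dsimp only
      rw [← LinearMap.det_toMatrix b, Matrix.det_apply']
      simp [LinearMap.toMatrix_apply]
    rw [h1]
    refine DifferentiableOn.fun_sum fun σ _ => ?_
    refine (differentiableOn_const _).mul ?_
    refine osc_prod _ _ fun i => ?_
    let ℓ : E →L[ℂ] ℂ := LinearMap.toContinuousLinearMap (b.coord (σ i))
    have h2 : DifferentiableOn ℂ (fun z => fderiv ℂ f z (b i)) U :=
      hdf.clm_apply (differentiableOn_const _)
    have h3 : DifferentiableOn ℂ (fun z => (ℓ.comp (e : F →L[ℂ] E)) (fderiv ℂ f z (b i))) U :=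
      (ℓ.comp (e : F →L[ℂ] E)).differentiable.comp_differentiableOn h2
    exact h3
  -- `g = 0` implies that the derivative vanishes
  have hgz : ∀ z ∈ U, g z = 0 → fderiv ℂ f z = 0 := by
    intro z hz hgz
    by_contra hcon
    have h1 := halt z hz hcon
    have h2 : Function.Injective
        (((e : F →L[ℂ] E).comp (fderiv ℂ f z) : E →L[ℂ] E) : E →ₗ[ℂ] E) := by
      intro x y hxy
      exact h1 (e.injective hxy)
    have h3 : IsUnit (((e : F →L[ℂ] E).comp (fderiv ℂ f z) : E →L[ℂ] E) : E →ₗ[ℂ] E) :=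
      (LinearMap.isUnit_iff_ker_eq_bot _).2 (LinearMap.ker_eq_bot.2 h2)
    have h4 := h3.map (LinearMap.det : (E →ₗ[ℂ] E) →* ℂ)
    exact h4.ne_zero hgz
  have hgp : g p = 0 := by
    rw [hg]
    dsimp only
    rw [hp0]
    have h1 : (((e : F →L[ℂ] E).comp (0 : E →L[ℂ] F) : E →L[ℂ] E) : E →ₗ[ℂ] E) = 0 := by
      ext x; simp
    rw [h1]
    rw [LinearMap.det_zero]
    exact zero_pow (by omega)
  by_cases hev : ∀ᶠ z in 𝓝 p, g z = 0
  · -- `f` is constant near `p`
    obtain ⟨ρ, hρ, hb⟩ := Metric.mem_nhds_iff.1 (hev.and (hU.mem_nhds hp))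
    have h1 : ∀ z ∈ ball p ρ, fderiv ℂ f z = 0 := fun z hz => hgz z (hb hz).2 (hb hz).1
    have hsub : ball p ρ ⊆ U := fun z hz => (hb hz).2
    have h2 := osc_const (hf.mono hsub) h1
    obtain ⟨w, hw⟩ := exists_ne (0 : E)
    have hwn : 0 < ‖w‖ := norm_pos_iff.2 hw
    have hmem : p + ((ρ / (2 * ‖w‖) : ℝ) : ℂ) • w ∈ ball p ρ := by
      rw [mem_ball, dist_eq_norm, add_sub_cancel_left, norm_smul, Complex.norm_real,
        Real.norm_of_nonneg (by positivity)]
      have : ρ / (2 * ‖w‖) * ‖w‖ = ρ / 2 := by field_simp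
      rw [this]; linarith
    have h3 := hinj (hsub hmem) hp (h2 _ hmem p (mem_ball_self hρ))
    have h4 : ((ρ / (2 * ‖w‖) : ℝ) : ℂ) • w = 0 := by
      have := congrArg (fun x => x - p) h3
      simpa using this
    rw [smul_eq_zero] at h4
    rcases h4 with h4 | h4
    · have h5 : ρ / (2 * ‖w‖) = 0 := by exact_mod_cast h4
      have h6 : 0 < ρ / (2 * ‖w‖) := by positivity
      linarith
    · exact hw h4
  · obtain ⟨c, δ, hδ, hcd, hcinj, hc⟩ := hcrv E hE g U p hU hgd hp hgp hev
    have hfc : DifferentiableOn ℂ (fun s => f (c s)) (ball 0 δ) :=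
      hf.comp hcd (fun s hs => (hc s hs).1)
    have h1 : ∀ s ∈ ball (0 : ℂ) δ, fderiv ℂ (fun s => f (c s)) s = 0 := by
      intro s hs
      have h2 : DifferentiableAt ℂ f (c s) := hf.differentiableAt (hU.mem_nhds (hc s hs).1)
      have h3 : DifferentiableAt ℂ c s := hcd.differentiableAt (isOpen_ball.mem_nhds hs)
      have h4 := fderiv_comp s h2 h3
      rw [hgz (c s) (hc s hs).1 (hc s hs).2] at h4
      simpa [Function.comp_def] using h4
    have h2 := osc_const hfc h1
    have hm0 : (0 : ℂ) ∈ ball (0 : ℂ) δ := mem_ball_self hδ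
    have hm1 : ((δ / 2 : ℝ) : ℂ) ∈ ball (0 : ℂ) δ := by
      rw [mem_ball, dist_zero_right, Complex.norm_real, Real.norm_of_nonneg (by positivity)]
      linarith
    have h3 := hinj (hc _ hm1).1 (hc _ hm0).1 (h2 _ hm1 _ hm0)
    have h4 := hcinj hm1 hm0 h3
    have h5 : δ / 2 = 0 := by exact_mod_cast h4
    linarith

end Pool.Agent.H6.FB
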